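import Mathlib
import Pool.Agent.H729Z.Pi04.Defs
import Pool.Agent.H729Z.Pi04.Main

set_option autoImplicit false

namespace Pool.Agent.Results.MP_c9b87f_lc.APi04Dichotomy

open Pool.Agent.H729Z.Pi04

universe u

/-- For every Polish space `X` (in particular every uncountable one) and every Pi-0-4 ideal `I`
on the natural numbers, the family of sets of `I`-limit points of sequences in `X` (together with
the empty set) is either the family of all closed sets or the family of all F-sigma sets. -/
theorem result (X : Type u) [TopologicalSpace X] [PolishSpace X] (I : Set (Set ℕ))
    (hI : IsIdeal I) (hP : IsPi04 (toCantor I)) :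
    limitFamily X I = {A : Set X | IsClosed A} ∨ limitFamily X I = {A : Set X | IsFsigma A} :=
  dichotomy X I hI hP

end Pool.Agent.Results.MP_c9b87f_lc.APi04Dichotomy
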